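import Mathlib

/-!
# Contact algebras of regular closed sets: language, structure, clans
-/

open FirstOrder

universe u

namespace Pool.Agent.Lib_MP_2fbd40_lc

/-- Function symbols of the language of contact algebras. -/
inductive CAFunc : ℕ → Type
  /-- the constant 0 -/
  | zero : CAFunc 0
  /-- the constant 1 -/
  | one : CAFunc 0
  /-- Boolean product -/
  | mul : CAFunc 2
  /-- Boolean sum -/
  | add : CAFunc 2
  /-- Boolean complement -/
  | star : CAFunc 1

/-- Relation symbols of the language of contact algebras: one binary symbol, contact. -/
inductive CARel : ℕ → Type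
  /-- contact -/
  | contact : CARel 2

/-- The first-order language of contact algebras. -/
def caLang : FirstOrder.Language.{0, 0} := ⟨CAFunc, CARel⟩

/-- The regular closed subsets of a topological space. -/
def RC (X : Type u) [TopologicalSpace X] : Type u := {a : Set X // closure (interior a) = a}

theorem closure_interior_closure_interior {X : Type u} [TopologicalSpace X] (s : Set X) :
    closure (interior (closure (interior s))) = closure (interior s) := by
  apply le_antisymm
  · exact closure_minimal interior_subset isClosed_closure
  · exact closure_mono (interior_maximal subset_closure isOpen_interior)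

theorem closure_interior_union {X : Type u} [TopologicalSpace X] {s t : Set X}
    (hs : closure (interior s) = s) (ht : closure (interior t) = t) :
    closure (interior (s ∪ t)) = s ∪ t := by
  have hsc : IsClosed s := hs ▸ isClosed_closure
  have htc : IsClosed t := ht ▸ isClosed_closure
  apply le_antisymm
  · exact closure_minimal interior_subset (hsc.union htc)
  · apply Set.union_subset
    · conv_lhs => rw [← hs]
      exact closure_mono (interior_mono Set.subset_union_left)
    · conv_lhs => rw [← ht]
      exact closure_mono (interior_mono Set.subset_union_right)

theorem closure_interior_closure_compl {X : Type u} [TopologicalSpace X] {s : Set X}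
    (hs : closure (interior s) = s) :
    closure (interior (closure sᶜ)) = closure sᶜ := by
  have hsc : IsClosed s := hs ▸ isClosed_closure
  have h : IsOpen sᶜ := hsc.isOpen_compl
  apply le_antisymm
  · exact closure_minimal interior_subset isClosed_closure
  · exact closure_mono (interior_maximal subset_closure h)

/-- The standard contact algebra of regular closed sets of `X`, as a structure for the
language of contact algebras. -/
instance rcStructure (X : Type u) [TopologicalSpace X] : caLang.Structure (RC X) where
  funMap := fun {n} f => match n, f with
    | _, .zero => fun _ => ⟨∅, by simp⟩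
    | _, .one => fun _ => ⟨Set.univ, by simp⟩
    | _, .mul => fun v => ⟨closure (interior ((v 0).1 ∩ (v 1).1)),
        closure_interior_closure_interior _⟩
    | _, .add => fun v => ⟨(v 0).1 ∪ (v 1).1, closure_interior_union (v 0).2 (v 1).2⟩
    | _, .star => fun v => ⟨closure ((v 0).1)ᶜ, closure_interior_closure_compl (v 0).2⟩
  RelMap := fun {n} r => match n, r with
    | _, .contact => fun v => ((v 0).1 ∩ (v 1).1).Nonempty

/-- `Γ` is a clan of the contact algebra of regular closed sets of `X`: it contains `1`, does not
contain `0`, is upward closed, is prime for sums, and any two of its members are in contact. -/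
structure IsClan {X : Type u} [TopologicalSpace X] (Γ : Set (RC X)) : Prop where
  one_mem : ∀ a : RC X, a.1 = Set.univ → a ∈ Γ
  zero_notMem : ∀ a : RC X, a.1 = ∅ → a ∉ Γ
  up : ∀ a b : RC X, a ∈ Γ → a.1 ⊆ b.1 → b ∈ Γ
  prime : ∀ a b c : RC X, c.1 = a.1 ∪ b.1 → c ∈ Γ → a ∈ Γ ∨ b ∈ Γ
  contact : ∀ a b : RC X, a ∈ Γ → b ∈ Γ → (a.1 ∩ b.1).Nonempty

/-- `X` is semiregular: the regular closed sets form a base of closed sets. -/
def Semiregular (X : Type u) [TopologicalSpace X] : Prop :=
  ∀ F : Set X, IsClosed F → ∀ x ∉ F, ∃ a : RC X, F ⊆ a.1 ∧ x ∉ a.1

end Pool.Agent.Lib_MP_2fbd40_lc
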