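import Pool.Agent.Lib_MP_2fbd40_lc.Defs

/-!
# n-ary contact is not first-order definable in contact algebras (n ≥ 3): the proof

Proof idea.  The power set of a reflexive graph `G` with the relation `some point of S is adjacent
to some point of T` is a contact algebra; it is isomorphic to the standard contact algebra of its
clan space, whose points are all clans.  For disjoint unions over a fixed index set the type of
bounded rank of a tuple of sets is determined by the types of the components (`tp_sig`).  We use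
tripartite graphs `tri m` in which no clan contains the three parts, and pigeonhole to find
infinitely many `m` with the same type.  The disjoint union of these graphs has a clan containing
the three parts (`exists_clan`), the disjoint union of copies of a single one has none
(`no_clan`), but both have the same type, so satisfy the same formulas of the given rank.
-/

open FirstOrder

namespace Pool.Agent.Lib_MP_2fbd40_lc

/-! ### Graphs and their contact algebras -/

/-- A reflexive symmetric graph. -/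
structure Gr where
  V : Type
  E : V → V → Prop
  refl : ∀ v, E v v
  symm : ∀ v w, E v w → E w v

/-- The power set of the vertex set of a graph. -/
def PS (G : Gr) : Type := Set G.V

/-- The underlying set. -/
def PS.st {G : Gr} (a : PS G) : Set G.V := a

instance psStructure (G : Gr) : caLang.Structure (PS G) where
  funMap := fun {n} f => match n, f with
    | _, .zero => fun _ => (∅ : Set G.V)
    | _, .one => fun _ => (Set.univ : Set G.V)
    | _, .mul => fun v => ((v 0).st ∩ (v 1).st : Set G.V)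
    | _, .add => fun v => ((v 0).st ∪ (v 1).st : Set G.V)
    | _, .star => fun v => ((v 0).st ᶜ : Set G.V)
  RelMap := fun {n} r => match n, r with
    | _, .contact => fun v => ∃ x ∈ (v 0).st, ∃ y ∈ (v 1).st, G.E x y

/-! ### Types of bounded rank -/

/-- The finite set of possible types of rank `k` of tuples indexed by `α ⊕ Fin n`. -/
def Tp (α : Type) : ℕ → ℕ → Type
  | 0, n => Set (α ⊕ Fin n → Prop) × Set ((α ⊕ Fin n → Prop) × (α ⊕ Fin n → Prop))
  | k + 1, n => Set (Tp α k (n + 1))

/-- A type of positive rank as a set. -/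
def Tp.st {α : Type} {k n : ℕ} (t : Tp α (k + 1) n) : Set (Tp α k (n + 1)) := t

instance finite_Tp (α : Type) [Finite α] : ∀ k n, Finite (Tp α k n)
  | 0, n => by unfold Tp; infer_instance
  | k + 1, n => by
    have := finite_Tp α k (n + 1)
    unfold Tp
    infer_instance

/-- The cell of a point. -/
def cell {α V : Type} {n : ℕ} (v : α → Set V) (xs : Fin n → Set V) (x : V) : α ⊕ Fin n → Prop :=
  fun j => x ∈ Sum.elim v xs j

/-- The type of rank `k` of a tuple of sets. -/
def tp {α : Type} (G : Gr) : (k n : ℕ) → (α → Set G.V) → (Fin n → Set G.V) → Tp α k n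
  | 0, _, v, xs => (Set.range (cell v xs), {p | ∃ x y, G.E x y ∧ p = (cell v xs x, cell v xs y)})
  | k + 1, n, v, xs => Set.range (fun X : Set G.V => tp G k (n + 1) v (Fin.snoc xs X))

/-- Disjoint union of graphs. -/
def sig {ι : Type} (G : ι → Gr) : Gr where
  V := Σ i, (G i).V
  E := fun p q => ∃ i x y, p = ⟨i, x⟩ ∧ q = ⟨i, y⟩ ∧ (G i).E x y
  refl := fun ⟨i, x⟩ => ⟨i, x, x, rfl, rfl, (G i).refl x⟩
  symm := fun _ _ ⟨i, x, y, hp, hq, h⟩ => ⟨i, y, x, hq, hp, (G i).symm _ _ h⟩

/-- Disjoint union of subsets. -/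
def sigSet {ι : Type} (G : ι → Gr) (S : ∀ i, Set (G i).V) : Set (sig G).V :=
  {p | p.2 ∈ S p.1}

theorem cell_sig {α ι : Type} (G : ι → Gr) {n : ℕ} (v : ∀ i, α → Set (G i).V)
    (xs : ∀ i, Fin n → Set (G i).V) (i : ι) (x : (G i).V) :
    cell (fun j => sigSet G (fun i => v i j)) (fun j => sigSet G (fun i => xs i j)) ⟨i, x⟩ =
      cell (v i) (xs i) x := by
  funext j
  rcases j with j | j <;> rfl

theorem sig_snoc {ι : Type} (G : ι → Gr) {n : ℕ} 
    (xs : ∀ i, Fin n → Set (G i).V) (X : ∀ i, Set (G i).V) :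
    (fun j => sigSet G (fun i => (Fin.snoc (xs i) (X i) : Fin (n + 1) → Set (G i).V) j)) =
      (Fin.snoc (fun j => sigSet G (fun i => xs i j)) (sigSet G X) :
        Fin (n + 1) → Set (sig G).V) := by
  funext j
  refine Fin.lastCases ?_ (fun j => ?_) j
  · simp
  · simp

/-- Composition theorem for disjoint unions with a fixed index set. -/
theorem tp_sig {α ι : Type} (G H : ι → Gr) (k : ℕ) : ∀ (n : ℕ) (v : ∀ i, α → Set (G i).V)
    (w : ∀ i, α → Set (H i).V) (xs : ∀ i, Fin n → Set (G i).V) (ys : ∀ i, Fin n → Set (H i).V),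
    (∀ i, tp (G i) k n (v i) (xs i) = tp (H i) k n (w i) (ys i)) →
    tp (sig G) k n (fun j => sigSet G (fun i => v i j)) (fun j => sigSet G (fun i => xs i j)) =
      tp (sig H) k n (fun j => sigSet H (fun i => w i j))
        (fun j => sigSet H (fun i => ys i j)) := by
  have key : ∀ (G H : ι → Gr) (n : ℕ) (v : ∀ i, α → Set (G i).V)
      (w : ∀ i, α → Set (H i).V) (xs : ∀ i, Fin n → Set (G i).V)
      (ys : ∀ i, Fin n → Set (H i).V),
      (∀ i, tp (G i) 0 n (v i) (xs i) = tp (H i) 0 n (w i) (ys i)) →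
      (Set.range (cell (fun j => sigSet G (fun i => v i j))
        (fun j => sigSet G (fun i => xs i j))) ⊆
        Set.range (cell (fun j => sigSet H (fun i => w i j))
        (fun j => sigSet H (fun i => ys i j)))) ∧
      ({p | ∃ x y, (sig G).E x y ∧ p = (cell (fun j => sigSet G (fun i => v i j))
        (fun j => sigSet G (fun i => xs i j)) x, cell (fun j => sigSet G (fun i => v i j))
        (fun j => sigSet G (fun i => xs i j)) y)} ⊆
       {p | ∃ x y, (sig H).E x y ∧ p = (cell (fun j => sigSet H (fun i => w i j))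
        (fun j => sigSet H (fun i => ys i j)) x, cell (fun j => sigSet H (fun i => w i j))
        (fun j => sigSet H (fun i => ys i j)) y)}) := by
    intro G H n v w xs ys h
    constructor
    · rintro _ ⟨⟨i, x⟩, rfl⟩
      rw [cell_sig]
      have h1 : cell (v i) (xs i) x ∈ (tp (G i) 0 n (v i) (xs i)).1 := ⟨x, rfl⟩
      rw [h i] at h1
      obtain ⟨y, hy⟩ := h1
      exact ⟨⟨i, y⟩, by rw [cell_sig]; exact hy⟩
    · rintro _ ⟨_, _, ⟨i, x, y, rfl, rfl, hE⟩, rfl⟩
      rw [cell_sig, cell_sig]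
      have h1 : (cell (v i) (xs i) x, cell (v i) (xs i) y) ∈ (tp (G i) 0 n (v i) (xs i)).2 :=
        ⟨x, y, hE, rfl⟩
      rw [h i] at h1
      obtain ⟨x', y', hE', he⟩ := h1
      refine ⟨⟨i, x'⟩, ⟨i, y'⟩, ⟨i, x', y', rfl, rfl, hE'⟩, ?_⟩
      rw [cell_sig, cell_sig]
      exact he
  induction k with
  | zero =>
    intro n v w xs ys h
    have h1 := key G H n v w xs ys h
    have h2 := key H G n w v ys xs (fun i => (h i).symm)
    exact Prod.ext (Set.Subset.antisymm h1.1 h2.1) (Set.Subset.antisymm h1.2 h2.2)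
  | succ k ih =>
    intro n v w xs ys h
    apply Set.Subset.antisymm
    · rintro _ ⟨X, rfl⟩
      have h1 : ∀ i, ∃ Y : Set (H i).V,
          tp (H i) k (n + 1) (w i) (Fin.snoc (ys i) Y) =
          tp (G i) k (n + 1) (v i) (Fin.snoc (xs i) {x | (⟨i, x⟩ : (sig G).V) ∈ X}) := by
        intro i
        have h2 : tp (G i) k (n + 1) (v i) (Fin.snoc (xs i) {x | (⟨i, x⟩ : (sig G).V) ∈ X}) ∈
            (tp (G i) (k + 1) n (v i) (xs i)).st := ⟨_, rfl⟩
        rw [h i] at h2
        exact h2
      choose Y hY using h1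
      have h3 := ih (n + 1) v w (fun i => Fin.snoc (xs i) {x | (⟨i, x⟩ : (sig G).V) ∈ X})
        (fun i => Fin.snoc (ys i) (Y i)) (fun i => (hY i).symm)
      rw [sig_snoc, sig_snoc] at h3
      exact ⟨sigSet H Y, h3.symm⟩
    · rintro _ ⟨X, rfl⟩
      have h1 : ∀ i, ∃ Y : Set (G i).V,
          tp (G i) k (n + 1) (v i) (Fin.snoc (xs i) Y) =
          tp (H i) k (n + 1) (w i) (Fin.snoc (ys i) {x | (⟨i, x⟩ : (sig H).V) ∈ X}) := by
        intro i
        have h2 : tp (H i) k (n + 1) (w i) (Fin.snoc (ys i) {x | (⟨i, x⟩ : (sig H).V) ∈ X}) ∈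
            (tp (H i) (k + 1) n (w i) (ys i)).st := ⟨_, rfl⟩
        rw [← h i] at h2
        exact h2
      choose Y hY using h1
      have h3 := ih (n + 1) v w (fun i => Fin.snoc (xs i) (Y i))
        (fun i => Fin.snoc (ys i) {x | (⟨i, x⟩ : (sig H).V) ∈ X}) hY
      rw [sig_snoc, sig_snoc] at h3
      exact ⟨sigSet G Y, h3⟩

/-! ### Types determine truth of formulas -/

theorem tp_zero_of_tp {α : Type} (G H : Gr) (k : ℕ) : ∀ (n : ℕ) (v : α → Set G.V)
    (w : α → Set H.V) (xs : Fin n → Set G.V) (ys : Fin n → Set H.V),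
    tp G k n v xs = tp H k n w ys → tp G 0 n v xs = tp H 0 n w ys := by
  induction k with
  | zero => intro n v w xs ys h; exact h
  | succ k ih =>
    intro n v w xs ys h
    have h1 : tp G k (n + 1) v (Fin.snoc xs ∅) ∈ (tp G (k + 1) n v xs).st := ⟨_, rfl⟩
    rw [h] at h1
    obtain ⟨Y, hY⟩ := h1
    have h2 := ih (n + 1) v w (Fin.snoc xs ∅) (Fin.snoc ys Y) hY.symm
    -- restrict cells
    let r : (α ⊕ Fin (n + 1) → Prop) → (α ⊕ Fin n → Prop) := fun c j => c (Sum.map id Fin.castSucc j)
    have hr : ∀ (K : Gr) (v : α → Set K.V) (xs : Fin n → Set K.V) (X : Set K.V) (x : K.V),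
        r (cell v (Fin.snoc xs X : Fin (n + 1) → Set K.V) x) = cell v xs x := by
      intro K v xs X x
      funext j
      rcases j with j | j
      · rfl
      · simp [r, cell]
    have hz : ∀ (K : Gr) (v : α → Set K.V) (xs : Fin n → Set K.V) (X : Set K.V),
        tp K 0 n v xs = (r '' (tp K 0 (n + 1) v (Fin.snoc xs X)).1,
          (Prod.map r r) '' (tp K 0 (n + 1) v (Fin.snoc xs X)).2) := by
      intro K v xs X
      apply Prod.ext
      · ext c
        constructor
        · rintro ⟨x, rfl⟩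
          exact ⟨_, ⟨x, rfl⟩, hr K v xs X x⟩
        · rintro ⟨_, ⟨x, rfl⟩, rfl⟩
          exact ⟨x, (hr K v xs X x).symm⟩
      · ext c
        constructor
        · rintro ⟨x, y, hE, rfl⟩
          exact ⟨_, ⟨x, y, hE, rfl⟩, Prod.ext (hr K v xs X x) (hr K v xs X y)⟩
        · rintro ⟨_, ⟨x, y, hE, rfl⟩, rfl⟩
          exact ⟨x, y, hE, Prod.ext (hr K v xs X x) (hr K v xs X y)⟩
    rw [hz G v xs ∅, hz H w ys Y, h2]

/-- A term is computed pointwise. -/
theorem term_pointwise {β : Type} (t : caLang.Term β) :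
    ∃ B : (β → Prop) → Prop, ∀ (G : Gr) (u : β → PS G) (x : G.V),
      (x ∈ (t.realize u).st) ↔ B (fun j => x ∈ (u j).st) := by
  induction t with
  | var j => exact ⟨fun c => c j, fun G u x => Iff.rfl⟩
  | func f ts ih =>
    choose B hB using ih
    cases f with
    | zero => exact ⟨fun _ => False, fun G u x => Iff.rfl⟩
    | one => exact ⟨fun _ => True, fun G u x => by
        constructor
        · intro _; trivial
        · intro _; exact Set.mem_univ x⟩
    | mul => exact ⟨fun c => B 0 c ∧ B 1 c, fun G u x => and_congr (hB 0 G u x) (hB 1 G u x)⟩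
    | add => exact ⟨fun c => B 0 c ∨ B 1 c, fun G u x => or_congr (hB 0 G u x) (hB 1 G u x)⟩
    | star => exact ⟨fun c => ¬ B 0 c, fun G u x => not_congr (hB 0 G u x)⟩

/-- Truth of a formula is determined by the type of rank `k`, for all large `k`. -/
theorem formula_tp {α : Type} {n : ℕ} (φ : caLang.BoundedFormula α n) :
    ∃ k₀ : ℕ, ∀ k, k₀ ≤ k → ∀ (G H : Gr) (v : α → PS G) (w : α → PS H)
      (xs : Fin n → PS G) (ys : Fin n → PS H),
      tp G k n v xs = tp H k n w ys → (φ.Realize v xs ↔ φ.Realize w ys) := by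
  induction φ with
  | falsum => exact ⟨0, fun _ _ _ _ _ _ _ _ _ => Iff.rfl⟩
  | @equal n t₁ t₂ =>
    obtain ⟨B₁, hB₁⟩ := term_pointwise t₁
    obtain ⟨B₂, hB₂⟩ := term_pointwise t₂
    refine ⟨0, fun k _ G H v w xs ys h => ?_⟩
    have h0 := tp_zero_of_tp G H k n v w xs ys h
    have e : ∀ (K : Gr) (v : α → PS K) (xs : Fin n → PS K),
        ((FirstOrder.Language.BoundedFormula.equal t₁ t₂).Realize v xs ↔
          ∀ c ∈ (tp K 0 n v xs).1, (B₁ c ↔ B₂ c)) := by
      intro K v xs
      change (t₁.realize (Sum.elim v xs) = t₂.realize (Sum.elim v xs)) ↔ _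
      constructor
      · intro he c hc
        obtain ⟨x, rfl⟩ := hc
        have h1 := hB₁ K (Sum.elim v xs) x
        have h2 := hB₂ K (Sum.elim v xs) x
        rw [he] at h1
        exact h1.symm.trans h2
      · intro hc
        have h3 : (t₁.realize (Sum.elim v xs)).st = (t₂.realize (Sum.elim v xs)).st := by
          apply Set.ext
          intro x
          rw [hB₁ K (Sum.elim v xs) x, hB₂ K (Sum.elim v xs) x]
          exact hc _ ⟨x, rfl⟩
        exact h3
    rw [e G v xs, e H w ys, h0]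
  | @rel n l R ts =>
    cases R
    obtain ⟨B₁, hB₁⟩ := term_pointwise (ts 0)
    obtain ⟨B₂, hB₂⟩ := term_pointwise (ts 1)
    refine ⟨0, fun k _ G H v w xs ys h => ?_⟩
    have h0 := tp_zero_of_tp G H k n v w xs ys h
    have e : ∀ (K : Gr) (v : α → PS K) (xs : Fin n → PS K),
        ((FirstOrder.Language.BoundedFormula.rel CARel.contact ts :
          caLang.BoundedFormula α n).Realize v xs ↔
          ∃ p ∈ (tp K 0 n v xs).2, B₁ p.1 ∧ B₂ p.2) := by
      intro K v xs
      change (∃ x ∈ ((ts 0).realize (Sum.elim v xs)).st,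
        ∃ y ∈ ((ts 1).realize (Sum.elim v xs)).st, K.E x y) ↔ _
      constructor
      · rintro ⟨x, hx, y, hy, hE⟩
        exact ⟨_, ⟨x, y, hE, rfl⟩, (hB₁ K (Sum.elim v xs) x).1 hx,
          (hB₂ K (Sum.elim v xs) y).1 hy⟩
      · rintro ⟨_, ⟨x, y, hE, rfl⟩, h1, h2⟩
        exact ⟨x, (hB₁ K (Sum.elim v xs) x).2 h1, y, (hB₂ K (Sum.elim v xs) y).2 h2, hE⟩
    rw [e G v xs, e H w ys, h0]
  | imp φ ψ ih₁ ih₂ =>
    obtain ⟨k₁, h₁⟩ := ih₁
    obtain ⟨k₂, h₂⟩ := ih₂
    refine ⟨max k₁ k₂, fun k hk G H v w xs ys h => ?_⟩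
    have a₁ := h₁ k (le_trans (le_max_left _ _) hk) G H v w xs ys h
    have a₂ := h₂ k (le_trans (le_max_right _ _) hk) G H v w xs ys h
    rw [FirstOrder.Language.BoundedFormula.realize_imp,
      FirstOrder.Language.BoundedFormula.realize_imp, a₁, a₂]
  | all φ ih =>
    obtain ⟨k₁, h₁⟩ := ih
    refine ⟨k₁ + 1, fun k hk G H v w xs ys h => ?_⟩
    obtain ⟨k', rfl⟩ : ∃ k', k = k' + 1 := ⟨k - 1, by omega⟩
    rw [FirstOrder.Language.BoundedFormula.realize_all,
      FirstOrder.Language.BoundedFormula.realize_all]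
    constructor
    · intro hG Y
      have h2 : tp H k' _ w (Fin.snoc ys Y) ∈ (tp H (k' + 1) _ w ys).st := ⟨_, rfl⟩
      rw [← h] at h2
      obtain ⟨X, hX⟩ := h2
      exact (h₁ k' (by omega) G H v w (Fin.snoc xs X) (Fin.snoc ys Y) hX).1 (hG X)
    · intro hH X
      have h2 : tp G k' _ v (Fin.snoc xs X) ∈ (tp G (k' + 1) _ v xs).st := ⟨_, rfl⟩
      rw [h] at h2
      obtain ⟨Y, hY⟩ := h2
      exact (h₁ k' (by omega) G H v w (Fin.snoc xs X) (Fin.snoc ys Y) hY.symm).2 (hH Y)

/-! ### The clan space of a graph -/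

/-- Clans of the contact algebra of a graph. -/
@[ext]
structure GClan (G : Gr) where
  carrier : Set (Set G.V)
  univ_mem : Set.univ ∈ carrier
  empty_notMem : ∅ ∉ carrier
  up : ∀ S T, S ∈ carrier → S ⊆ T → T ∈ carrier
  prime : ∀ S T, S ∪ T ∈ carrier → S ∈ carrier ∨ T ∈ carrier
  contact : ∀ S ∈ carrier, ∀ T ∈ carrier, ∃ x ∈ S, ∃ y ∈ T, G.E x y

/-- The set of clans containing a given set. -/
def hset {G : Gr} (S : Set G.V) : Set (GClan G) := {Γ | S ∈ Γ.carrier}

instance clanTop (G : Gr) : TopologicalSpace (GClan G) :=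
  TopologicalSpace.generateFrom {U | ∃ S : Set G.V, U = (hset S)ᶜ}

theorem hset_union {G : Gr} (S T : Set G.V) : hset (S ∪ T) = hset S ∪ hset T := by
  ext Γ
  constructor
  · exact fun h => Γ.prime S T h
  · rintro (h | h)
    · exact Γ.up _ _ h Set.subset_union_left
    · exact Γ.up _ _ h Set.subset_union_right

theorem hset_empty {G : Gr} : hset (∅ : Set G.V) = ∅ := by
  ext Γ
  exact ⟨fun h => Γ.empty_notMem h, fun h => h.elim⟩

theorem hset_univ {G : Gr} : hset (Set.univ : Set G.V) = Set.univ := by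
  ext Γ
  exact ⟨fun _ => trivial, fun _ => Γ.univ_mem⟩

theorem clan_basis (G : Gr) :
    TopologicalSpace.IsTopologicalBasis {U | ∃ S : Set G.V, U = (hset S)ᶜ} where
  exists_subset_inter := by
    rintro _ ⟨S, rfl⟩ _ ⟨T, rfl⟩ Γ hΓ
    refine ⟨(hset (S ∪ T))ᶜ, ⟨_, rfl⟩, ?_, ?_⟩
    · rw [hset_union, Set.compl_union]; exact hΓ
    · rw [hset_union, Set.compl_union]
  sUnion_eq := by
    apply Set.eq_univ_of_forall
    intro Γ
    exact ⟨(hset ∅)ᶜ, ⟨_, rfl⟩, by rw [hset_empty]; simp⟩
  eq_generateFrom := rfl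

theorem isClosed_hset {G : Gr} (S : Set G.V) : IsClosed (hset S) :=
  ⟨(clan_basis G).isOpen ⟨S, rfl⟩⟩

/-- The clan generated by two adjacent (or equal) vertices. -/
def pairClan {G : Gr} (x y : G.V) (h : G.E x y) : GClan G where
  carrier := {W | x ∈ W ∨ y ∈ W}
  univ_mem := Or.inl trivial
  empty_notMem := by rintro (h | h) <;> exact h
  up := by
    rintro S T (h | h) hST
    · exact Or.inl (hST h)
    · exact Or.inr (hST h)
  prime := by
    rintro S T ((h | h) | (h | h))
    · exact Or.inl (Or.inl h)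
    · exact Or.inr (Or.inl h)
    · exact Or.inl (Or.inr h)
    · exact Or.inr (Or.inr h)
  contact := by
    rintro S (hS | hS) T (hT | hT)
    · exact ⟨x, hS, x, hT, G.refl x⟩
    · exact ⟨x, hS, y, hT, h⟩
    · exact ⟨y, hS, x, hT, G.symm _ _ h⟩
    · exact ⟨y, hS, y, hT, G.refl y⟩

theorem pairClan_self_mem {G : Gr} (x : G.V) (S : Set G.V) :
    pairClan x x (G.refl x) ∈ hset S ↔ x ∈ S := by
  change (x ∈ S ∨ x ∈ S) ↔ _
  simp

theorem closure_compl_hset {G : Gr} (S : Set G.V) : closure (hset S)ᶜ = hset Sᶜ := by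
  apply Set.Subset.antisymm
  · refine closure_minimal ?_ (isClosed_hset _)
    intro Γ hΓ
    have h : S ∪ Sᶜ ∈ Γ.carrier := by rw [Set.union_compl_self]; exact Γ.univ_mem
    rcases Γ.prime _ _ h with h | h
    · exact (hΓ h).elim
    · exact h
  · intro Γ hΓ
    rw [(clan_basis G).mem_closure_iff]
    rintro _ ⟨T, rfl⟩ hT
    have h1 : (Sᶜ \ T) ∪ T ∈ Γ.carrier := Γ.up _ _ hΓ (by
      intro x hx
      by_cases hxT : x ∈ T
      · exact Or.inr hxT
      · exact Or.inl ⟨hx, hxT⟩)
    have h2 : Sᶜ \ T ∈ Γ.carrier := by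
      rcases Γ.prime _ _ h1 with h | h
      · exact h
      · exact (hT h).elim
    have h3 : (Sᶜ \ T).Nonempty := by
      rw [Set.nonempty_iff_ne_empty]
      intro h
      rw [h] at h2
      exact Γ.empty_notMem h2
    obtain ⟨x, hxS, hxT⟩ := h3
    refine ⟨pairClan x x (G.refl x), ?_, ?_⟩
    · intro h; exact hxT ((pairClan_self_mem x T).1 h)
    · intro h; exact hxS ((pairClan_self_mem x S).1 h)

theorem interior_hset {G : Gr} (S : Set G.V) : interior (hset S) = (hset Sᶜ)ᶜ := by
  rw [interior_eq_compl_closure_compl, closure_compl_hset]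

theorem hset_regular {G : Gr} (S : Set G.V) : closure (interior (hset S)) = hset S := by
  rw [interior_hset, closure_compl_hset, compl_compl]

theorem hset_injective {G : Gr} : Function.Injective (hset (G := G)) := by
  intro S T h
  ext x
  rw [← pairClan_self_mem x S, h, pairClan_self_mem]

theorem regular_eq_hset {G : Gr} (a : Set (GClan G)) (ha : closure (interior a) = a) :
    ∃ S : Set G.V, a = hset S := by
  refine ⟨{x | pairClan x x (G.refl x) ∈ interior a}, ?_⟩
  set S : Set G.V := {x | pairClan x x (G.refl x) ∈ interior a} with hS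
  apply Set.Subset.antisymm
  · rw [← ha]
    refine closure_minimal ?_ (isClosed_hset _)
    intro Γ hΓ
    by_contra hn
    -- the open set interior a ∩ (hset S)ᶜ contains a principal clan
    obtain ⟨_, ⟨T, rfl⟩, hT1, hT2⟩ := (clan_basis G).exists_subset_of_mem_open
      (show Γ ∈ interior a ∩ (hset S)ᶜ from ⟨hΓ, hn⟩)
      (isOpen_interior.inter (isClosed_hset S).isOpen_compl)
    have h1 : T ∪ Tᶜ ∈ Γ.carrier := by rw [Set.union_compl_self]; exact Γ.univ_mem
    have h2 : Tᶜ ∈ Γ.carrier := by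
      rcases Γ.prime _ _ h1 with h | h
      · exact (hT1 h).elim
      · exact h
    have h3 : (Tᶜ).Nonempty := by
      rw [Set.nonempty_iff_ne_empty]
      intro h
      rw [h] at h2
      exact Γ.empty_notMem h2
    obtain ⟨x, hx⟩ := h3
    have h4 : pairClan x x (G.refl x) ∈ (hset T)ᶜ := fun h => hx ((pairClan_self_mem x T).1 h)
    have h5 := hT2 h4
    exact h5.2 ((pairClan_self_mem x S).2 h5.1)
  · rw [← hset_regular S, interior_hset, ← ha]
    apply closure_minimal ?_ isClosed_closure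
    intro Γ hΓ
    rw [(clan_basis G).mem_closure_iff]
    rintro _ ⟨T, rfl⟩ hT
    -- a principal clan outside T and in S
    have h1 : Sᶜ ∪ T ∉ Γ.carrier := by
      intro h
      rcases Γ.prime _ _ h with h | h
      · exact hΓ h
      · exact hT h
    have h2 : (Sᶜ ∪ T)ᶜ.Nonempty := by
      rw [Set.nonempty_iff_ne_empty]
      intro h
      apply h1
      rw [Set.compl_empty_iff.1 h]
      exact Γ.univ_mem
    obtain ⟨x, hx⟩ := h2
    refine ⟨pairClan x x (G.refl x), ?_, ?_⟩
    · intro h; exact hx (Or.inr ((pairClan_self_mem x T).1 h))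
    · by_contra h
      exact hx (Or.inl h)

/-- The element of the contact algebra of the clan space given by a set of vertices. -/
def hRC {G : Gr} (S : Set G.V) : RC (GClan G) := ⟨hset S, hset_regular S⟩

theorem RC_ext {X : Type} [TopologicalSpace X] {a b : RC X} (h : a.1 = b.1) : a = b :=
  Subtype.ext h

/-- The contact algebra of a graph is isomorphic to the standard contact algebra of regular closed
sets of its clan space. -/
noncomputable def clanIso (G : Gr) : PS G ≃[caLang] RC (GClan G) where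
  toEquiv := Equiv.ofBijective (fun S : PS G => hRC S.st) (by
    constructor
    · intro S T h
      exact hset_injective (congrArg Subtype.val h)
    · rintro ⟨a, ha⟩
      obtain ⟨S, hS⟩ := regular_eq_hset a ha
      exact ⟨S, RC_ext hS.symm⟩)
  map_fun' := by
    intro n f x
    apply RC_ext
    cases f with
    | zero => exact hset_empty
    | one => exact hset_univ
    | mul =>
      change hset ((x 0).st ∩ (x 1).st) = closure (interior (hset (x 0).st ∩ hset (x 1).st))
      rw [interior_inter, interior_hset, interior_hset, ← Set.compl_union, ← hset_union,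
        closure_compl_hset, Set.compl_union, compl_compl, compl_compl]
    | add => exact hset_union _ _
    | star =>
      change hset ((x 0).st)ᶜ = closure (hset (x 0).st)ᶜ
      rw [closure_compl_hset]
  map_rel' := by
    intro n r x
    cases r
    change (hset (x 0).st ∩ hset (x 1).st).Nonempty ↔ ∃ a ∈ (x 0).st, ∃ b ∈ (x 1).st, G.E a b
    constructor
    · rintro ⟨Γ, h0, h1⟩
      exact Γ.contact _ h0 _ h1
    · rintro ⟨a, ha, b, hb, hE⟩
      exact ⟨pairClan a b hE, Or.inl ha, Or.inr hb⟩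

theorem clan_t0 (G : Gr) : T0Space (GClan G) := by
  refine ⟨fun Γ Δ h => ?_⟩
  rw [inseparable_iff_forall_isOpen] at h
  apply GClan.ext
  ext S
  have := h (hset S)ᶜ ((clan_basis G).isOpen ⟨S, rfl⟩)
  exact not_iff_not.1 this

theorem clan_semiregular (G : Gr) : Semiregular (GClan G) := by
  intro F hF Γ hΓ
  obtain ⟨_, ⟨S, rfl⟩, h1, h2⟩ := (clan_basis G).exists_subset_of_mem_open
    (show Γ ∈ Fᶜ from hΓ) hF.isOpen_compl
  refine ⟨hRC S, ?_, h1⟩
  exact Set.compl_subset_compl.1 h2

theorem clan_compact (G : Gr) : CompactSpace (GClan G) := by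
  refine ⟨isCompact_iff_ultrafilter_le_nhds.2 fun f _ => ?_⟩
  let Γ : GClan G :=
    { carrier := {S | hset S ∈ f}
      univ_mem := by
        change hset Set.univ ∈ f
        rw [hset_univ]; exact Filter.univ_mem
      empty_notMem := by
        change ¬ hset ∅ ∈ f
        rw [hset_empty]; exact f.empty_notMem
      up := by
        intro S T hS hST
        refine Filter.mem_of_superset hS ?_
        intro Δ hΔ
        exact Δ.up _ _ hΔ hST
      prime := by
        intro S T h
        change hset (S ∪ T) ∈ f at h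
        rw [hset_union] at h
        exact Ultrafilter.union_mem_iff.1 h
      contact := by
        intro S hS T hT
        obtain ⟨Δ, h1, h2⟩ := f.nonempty_of_mem (Filter.inter_mem hS hT)
        exact Δ.contact _ h1 _ h2 }
  refine ⟨Γ, trivial, ?_⟩
  rw [TopologicalSpace.nhds_generateFrom]
  refine le_iInf₂ ?_
  rintro _ ⟨h1, ⟨S, rfl⟩⟩
  rw [Filter.le_principal_iff]
  exact Ultrafilter.compl_mem_iff_notMem.2 h1

theorem clan_points (G : Gr) (Γ : Set (RC (GClan G))) (h : IsClan Γ) :
    ∃ x : GClan G, Γ = {a | x ∈ a.1} := by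
  let γ : GClan G :=
    { carrier := {S | hRC S ∈ Γ}
      univ_mem := h.one_mem _ hset_univ
      empty_notMem := h.zero_notMem _ hset_empty
      up := fun S T hS hST => h.up _ _ hS (fun Δ hΔ => Δ.up _ _ hΔ hST)
      prime := fun S T hST => h.prime _ _ _ (hset_union S T) hST
      contact := by
        intro S hS T hT
        obtain ⟨Δ, h1, h2⟩ := h.contact _ _ hS hT
        exact Δ.contact _ h1 _ h2 }
  refine ⟨γ, ?_⟩
  ext a
  obtain ⟨S, hS⟩ := regular_eq_hset a.1 a.2
  have ha : a = hRC S := RC_ext hS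
  rw [ha]
  exact Iff.rfl

/-! ### The graphs -/

/-- Three copies of a set with `m + 1` elements; copies 0,1 and 1,2 are joined by matchings,
copies 0 and 2 are joined by the complement of a matching. -/
def tri (m : ℕ) : Gr where
  V := Fin 3 × Fin (m + 1)
  E := fun p q => if (p.1 = 0 ∧ q.1 = 2) ∨ (p.1 = 2 ∧ q.1 = 0) then p.2 ≠ q.2 else p.2 = q.2
  refl := by
    rintro ⟨a, u⟩
    rw [if_neg]
    rintro (⟨h1, h2⟩ | ⟨h1, h2⟩) <;> · simp at h1 h2; rw [h1] at h2; exact absurd h2 (by decide)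
  symm := by
    rintro ⟨a, u⟩ ⟨b, v⟩ h
    by_cases hc : (a = 0 ∧ b = 2) ∨ (a = 2 ∧ b = 0)
    · rw [if_pos hc] at h
      rw [if_pos (by tauto)]
      exact fun e => h e.symm
    · rw [if_neg hc] at h
      rw [if_neg (by tauto)]
      exact h.symm

/-- The sets `a₀, …, a_{n-1}` in the graph `tri m`. -/
def part (n m : ℕ) (j : Fin n) : Set (tri m).V := {p | p.1.val = min j.val 2}

theorem exists_ultra (I : Set ℕ) (hI : I.Infinite) :
    ∃ q : Ultrafilter (Σ i : I, Fin (i.1 + 1)), ∀ Z ∈ q, ∃ (i : I) (u v : Fin (i.1 + 1)),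
      u ≠ v ∧ (⟨i, u⟩ : Σ i : I, Fin (i.1 + 1)) ∈ Z ∧
        (⟨i, v⟩ : Σ i : I, Fin (i.1 + 1)) ∈ Z := by
  let 𝒮 : Set (Set (Σ i : I, Fin (i.1 + 1))) :=
    {s | ∀ (i : I) (u v : Fin (i.1 + 1)), (⟨i, u⟩ : Σ i : I, Fin (i.1 + 1)) ∉ s →
      (⟨i, v⟩ : Σ i : I, Fin (i.1 + 1)) ∉ s → u = v}
  have hne : (Filter.generate 𝒮).NeBot := by
    rw [Filter.generate_neBot_iff]
    intro t ht hfin
    by_contra hcon
    rw [Set.not_nonempty_iff_eq_empty] at hcon
    obtain ⟨i, hiI, hi⟩ := hI.exists_gt t.ncard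
    have h1 : ∀ u : Fin (i + 1), ∃ s ∈ t,
        (⟨⟨i, hiI⟩, u⟩ : Σ i : I, Fin (i.1 + 1)) ∉ s := by
      intro u
      by_contra hc
      push Not at hc
      have : (⟨⟨i, hiI⟩, u⟩ : Σ i : I, Fin (i.1 + 1)) ∈ ⋂₀ t := fun s hs => hc s hs
      rw [hcon] at this
      exact this
    choose f hf1 hf2 using h1
    have h2 : (Set.univ : Set (Fin (i + 1))).ncard ≤ t.ncard := by
      apply Set.ncard_le_ncard_of_injOn f (fun u _ => hf1 u) _ hfin
      intro u _ v _ huv
      exact ht (hf1 u) ⟨i, hiI⟩ u v (hf2 u) (huv ▸ hf2 v)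
    rw [Set.ncard_univ, Nat.card_fin] at h2
    omega
  refine ⟨Ultrafilter.of (Filter.generate 𝒮), fun Z hZ => ?_⟩
  by_contra hc
  push Not at hc
  have h1 : Zᶜ ∈ 𝒮 := by
    intro i u v hu hv
    rw [Set.notMem_compl_iff] at hu hv
    by_contra huv
    exact hc i u v huv hu hv
  have h2 : Zᶜ ∈ Ultrafilter.of (Filter.generate 𝒮) :=
    Ultrafilter.of_le _ (Filter.mem_generate_of_mem h1)
  exact Ultrafilter.compl_mem_iff_notMem.1 h2 hZ

/-- In the disjoint union of unboundedly large graphs `tri i` the parts belong to a clan. -/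
theorem exists_clan (I : Set ℕ) (hI : I.Infinite) (n : ℕ) :
    ∃ Γ : GClan (sig (fun i : I => tri i.1)), ∀ j : Fin n,
      sigSet (fun i : I => tri i.1) (fun i => part n i.1 j) ∈ Γ.carrier := by
  obtain ⟨q, hq⟩ := exists_ultra I hI
  let pt : Fin 3 → (Σ i : I, Fin (i.1 + 1)) → (sig (fun i : I => tri i.1)).V :=
    fun j z => ⟨z.1, (j, z.2)⟩
  let Γ : GClan (sig (fun i : I => tri i.1)) :=
    { carrier := {W | ∃ j : Fin 3, {z | pt j z ∈ W} ∈ q}
      univ_mem := ⟨0, Filter.univ_mem⟩
      empty_notMem := by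
        rintro ⟨j, hj⟩
        exact q.empty_notMem hj
      up := fun S T ⟨j, hj⟩ hST => ⟨j, Filter.mem_of_superset hj (fun z hz => hST hz)⟩
      prime := by
        rintro S T ⟨j, hj⟩
        have : {z | pt j z ∈ S ∪ T} = {z | pt j z ∈ S} ∪ {z | pt j z ∈ T} := rfl
        rw [this, Ultrafilter.union_mem_iff] at hj
        rcases hj with hj | hj
        · exact Or.inl ⟨j, hj⟩
        · exact Or.inr ⟨j, hj⟩
      contact := by
        rintro S ⟨j, hj⟩ T ⟨j', hj'⟩
        obtain ⟨i, u, v, huv, hu, hv⟩ := hq _ (Filter.inter_mem hj hj')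
        by_cases hc : (j = 0 ∧ j' = 2) ∨ (j = 2 ∧ j' = 0)
        · refine ⟨_, hu.1, _, hv.2, i, (j, u), (j', v), rfl, rfl, ?_⟩
          change if (j = 0 ∧ j' = 2) ∨ (j = 2 ∧ j' = 0) then u ≠ v else u = v
          rw [if_pos hc]
          exact huv
        · refine ⟨_, hu.1, _, hu.2, i, (j, u), (j', u), rfl, rfl, ?_⟩
          change if (j = 0 ∧ j' = 2) ∨ (j = 2 ∧ j' = 0) then u ≠ u else u = u
          rw [if_neg hc] }
  refine ⟨Γ, fun j => ⟨⟨min j.val 2, by omega⟩, ?_⟩⟩
  exact Filter.mem_of_superset Filter.univ_mem (fun z _ => rfl)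

theorem clan_finite_union {G : Gr} (Γ : GClan G) {κ : Type} (s : Finset κ) (S : κ → Set G.V)
    (h : (⋃ u ∈ s, S u) ∈ Γ.carrier) : ∃ u ∈ s, S u ∈ Γ.carrier := by
  classical
  induction s using Finset.induction_on with
  | empty => simp at h; exact (Γ.empty_notMem h).elim
  | insert a s _ ih =>
    rw [Finset.set_biUnion_insert] at h
    rcases Γ.prime _ _ h with h | h
    · exact ⟨a, Finset.mem_insert_self _ _, h⟩
    · obtain ⟨u, hu, hu'⟩ := ih h
      exact ⟨u, Finset.mem_insert_of_mem hu, hu'⟩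

/-- In a disjoint union of copies of one graph `tri m` the parts do not belong to a clan. -/
theorem no_clan {ι : Type} (m n : ℕ) (hn : 3 ≤ n) (Γ : GClan (sig (fun _ : ι => tri m)))
    (h : ∀ j : Fin n, sigSet (fun _ : ι => tri m) (fun _ => part n m j) ∈ Γ.carrier) : False := by
  have key : ∀ j : Fin 3, ∃ u : Fin (m + 1),
      {p : (sig (fun _ : ι => tri m)).V | p.2 = (j, u)} ∈ Γ.carrier := by
    intro j
    have h1 := h ⟨j.val, by omega⟩
    have h2 : sigSet (fun _ : ι => tri m) (fun _ => part n m ⟨j.val, by omega⟩) =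
        ⋃ u ∈ (Finset.univ : Finset (Fin (m + 1))),
          {p : (sig (fun _ : ι => tri m)).V | p.2 = (j, u)} := by
      ext ⟨i, ⟨a, u⟩⟩
      refine Iff.trans ?_ Set.mem_iUnion₂.symm
      change (a.val = min j.val 2) ↔ ∃ u', ∃ _ : u' ∈ (Finset.univ : Finset (Fin (m + 1))),
        ((a, u) : Fin 3 × Fin (m + 1)) = (j, u')
      constructor
      · intro ha
        refine ⟨u, Finset.mem_univ _, ?_⟩
        have : a = j := by
          apply Fin.ext
          rw [ha]
          omega
        rw [this]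
      · rintro ⟨u', _, hu'⟩
        have : a = j := congrArg Prod.fst hu'
        rw [this]
        omega
    rw [h2] at h1
    obtain ⟨u, _, hu⟩ := clan_finite_union Γ _ _ h1
    exact ⟨u, hu⟩
  have key2 : ∀ (j j' : Fin 3) (u v : Fin (m + 1)),
      {p : (sig (fun _ : ι => tri m)).V | p.2 = (j, u)} ∈ Γ.carrier →
      {p : (sig (fun _ : ι => tri m)).V | p.2 = (j', v)} ∈ Γ.carrier →
      (tri m).E (j, u) (j', v) := by
    intro j j' u v h1 h2
    obtain ⟨x, hx, y, hy, i, x', y', rfl, rfl, hE⟩ := Γ.contact _ h1 _ h2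
    have e1 : x' = (j, u) := hx
    have e2 : y' = (j', v) := hy
    rw [e1, e2] at hE
    exact hE
  obtain ⟨u, hu⟩ := key 0
  obtain ⟨v, hv⟩ := key 1
  obtain ⟨w, hw⟩ := key 2
  have e1 : u = v := key2 0 1 u v hu hv
  have e2 : v = w := key2 1 2 v w hv hw
  have e3 : u ≠ w := key2 0 2 u w hu hw
  exact e3 (e1.trans e2)

/-- **Main theorem.** For `n ≥ 3` there is no first-order formula `φ(x₁, …, xₙ)` of the language of
contact algebras which defines the `n`-ary contact relation in the standard contact algebras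
`RC(X)`, even if `X` ranges only over the nonempty compact semiregular T0 spaces in which every
clan of `RC(X)` is of the form `{a | x ∈ a}` for a point `x`. -/
theorem main (n : ℕ) (hn : 3 ≤ n) :
    ¬ ∃ φ : caLang.Formula (Fin n),
      ∀ (X : Type) [TopologicalSpace X], Nonempty X → CompactSpace X → T0Space X →
        Semiregular X →
        (∀ Γ : Set (RC X), IsClan Γ → ∃ x : X, Γ = {a | x ∈ a.1}) →
        ∀ a : Fin n → RC X, (φ.Realize a ↔ (⋂ i, (a i).1).Nonempty) := by
  rintro ⟨φ, hφ⟩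
  -- evaluation in graphs
  have hG : ∀ (G : Gr), Nonempty G.V → ∀ a : Fin n → PS G,
      (φ.Realize a ↔ ∃ Γ : GClan G, ∀ j, (a j).st ∈ Γ.carrier) := by
    rintro G ⟨x⟩ a
    have h1 := hφ (GClan G) ⟨pairClan x x (G.refl x)⟩ (clan_compact G) (clan_t0 G)
      (clan_semiregular G) (clan_points G) (fun j => hRC (a j).st)
    have h2 : φ.Realize (fun j => clanIso G (a j)) ↔ φ.Realize a :=
      FirstOrder.Language.StrongHomClass.realize_formula (clanIso G) φ
    rw [← h2]
    refine h1.trans ?_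
    constructor
    · rintro ⟨Γ, hΓ⟩
      exact ⟨Γ, fun j => Set.mem_iInter.1 hΓ j⟩
    · rintro ⟨Γ, hΓ⟩
      exact ⟨Γ, Set.mem_iInter.2 hΓ⟩
  obtain ⟨k, hk⟩ := formula_tp φ
  obtain ⟨t, ht⟩ := Finite.exists_infinite_fiber
    (fun m : ℕ => tp (tri m) k 0 (part n m) (default : Fin 0 → Set (tri m).V))
  set I : Set ℕ := (fun m : ℕ => tp (tri m) k 0 (part n m)
    (default : Fin 0 → Set (tri m).V)) ⁻¹' {t} with hI
  have hIinf : I.Infinite := Set.infinite_coe_iff.1 ht
  obtain ⟨m, hm⟩ := hIinf.nonempty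
  have heq := tp_sig (fun i : I => tri i.1) (fun _ : I => tri m) k 0
    (fun i => part n i.1) (fun _ => part n m) (fun _ => default) (fun _ => default)
    (fun i => i.2.trans hm.symm)
  have h1 := hk k le_rfl (sig (fun i : I => tri i.1)) (sig (fun _ : I => tri m))
    (fun j => sigSet _ (fun i => part n i.1 j)) (fun j => sigSet _ (fun i => part n m j))
    default default (by
      have e1 : (default : Fin 0 → PS (sig (fun i : I => tri i.1))) =
        (fun j : Fin 0 => sigSet (fun i : I => tri i.1) (fun i => (default : Fin 0 →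
          Set (tri i.1).V) j)) := Subsingleton.elim _ _
      have e2 : (default : Fin 0 → PS (sig (fun _ : I => tri m))) =
        (fun j : Fin 0 => sigSet (fun _ : I => tri m) (fun _ => (default : Fin 0 →
          Set (tri m).V) j)) := Subsingleton.elim _ _
      rw [e1, e2]
      exact heq)
  have hne1 : Nonempty (sig (fun i : I => tri i.1)).V := ⟨⟨⟨m, hm⟩, ((0, 0) : Fin 3 × Fin (m + 1))⟩⟩
  have hne2 : Nonempty (sig (fun _ : I => tri m)).V := ⟨⟨⟨m, hm⟩, ((0, 0) : Fin 3 × Fin (m + 1))⟩⟩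
  have h2 := (hG _ hne1 (fun j => sigSet _ (fun i => part n i.1 j))).2 (exists_clan I hIinf n)
  have h3 := (hG _ hne2 (fun j => sigSet _ (fun i => part n m j))).1 (h1.1 h2)
  obtain ⟨Γ, hΓ⟩ := h3
  exact no_clan m n hn Γ hΓ

end Pool.Agent.Lib_MP_2fbd40_lc
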